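import Mathlib
import Pool.Agent.W417.FPR5

/-!
Every regular ring of prime characteristic `p` which is J-2 (in particular every excellent regular
ring of characteristic `p`) is F-pure regular.

* `FPush p e R` (in `Pool.Agent.W417.FPR3`) is the additive group of `R` with the `R`-module structure
  `r • s = r ^ (p ^ e) * s`; it is `F^e_* R`, and `FPush.of p e R s` is `F^e_* s`.
* An excellent ring is by definition noetherian, a G-ring, J-2 and universally catenary; only J-2 and
  noetherian (which is part of Mathlib's `IsRegularRing`) are used here.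
-/

set_option autoImplicit false

open TensorProduct IsLocalRing

namespace Pool.Agent.Results.MP_9ff724_al.JTwoRegular

open Pool.Agent.W417.FPR

universe u w

/-- The regular locus of `S`: the primes `P` for which `S_P` is a regular local ring. -/
def regularLocus (S : Type u) [CommRing S] : Set (PrimeSpectrum S) :=
  {P | IsRegularLocalRing (Localization.AtPrime P.asIdeal)}

/-- `R` is J-2: the regular locus of every finitely generated `R`-algebra is open. -/
def IsJTwo (R : Type u) [CommRing R] : Prop :=
  ∀ (S : Type u) [CommRing S] [Algebra R S], Algebra.FiniteType R S → IsOpen (regularLocus S)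

/-- `R°`: the elements of `R` lying in no minimal prime of `R`. -/
def circ (R : Type u) [CommRing R] : Set R := {c | ∀ P ∈ minimalPrimes R, c ∉ P}

/-- The `R`-linear map `λ^e_c : R → F^e_* R`, `r ↦ F^e_* (c * r ^ (p ^ e))`. -/
def lam (p : ℕ) [Fact p.Prime] (e : ℕ) (R : Type u) [CommRing R] [CharP R p] (c : R) :
    R →ₗ[R] FPush p e R where
  toFun r := FPush.of p e R (c * r ^ p ^ e)
  map_add' := by
    intro r s
    rw [add_pow_expChar_pow, mul_add, map_add]
  map_smul' := by
    intro r s
    rw [RingHom.id_apply, FPush.smul_def, smul_eq_mul, mul_pow, mul_left_comm]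

/-- A map `f : M → N` of `R`-modules is pure if `M ⊗ P → N ⊗ P` is injective for every
`R`-module `P`. -/
def IsPureMap {R : Type u} [CommRing R] {M N : Type u} [AddCommGroup M] [Module R M]
    [AddCommGroup N] [Module R N] (f : M →ₗ[R] N) : Prop :=
  ∀ (P : Type w) [AddCommGroup P] [Module R P], Function.Injective (LinearMap.rTensor P f)

/-- `R` is F-pure regular: for every `c ∈ R°` some `λ^e_c` with `e ≥ 1` is pure. -/
def IsFPureRegular (p : ℕ) [Fact p.Prime] (R : Type u) [CommRing R] [CharP R p] : Prop :=
  ∀ c ∈ circ R, ∃ e : ℕ, 1 ≤ e ∧ IsPureMap.{u, w} (lam p e R c)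

lemma bot_mem (S : Type u) [CommRing S] [IsDomain S] :
    (⟨⊥, Ideal.isPrime_bot⟩ : PrimeSpectrum S) ∈ regularLocus S := by
  change IsRegularLocalRing (Localization.AtPrime (⊥ : Ideal S))
  let : Field (Localization.AtPrime (⊥ : Ideal S)) := IsField.toField <| by
    simp [IsLocalRing.isField_iff_maximalIdeal_eq, ← Localization.AtPrime.map_eq_maximalIdeal]
  infer_instance

lemma jzero (R : Type u) [CommRing R] (h : IsJTwo R) : JZero R := by
  intro P hP
  have hopen := h (R ⧸ P) inferInstance
  obtain ⟨_, ⟨g, rfl⟩, hg1, hg2⟩ :=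
    PrimeSpectrum.isTopologicalBasis_basic_opens.exists_subset_of_mem_open (bot_mem (R ⧸ P)) hopen
  have hg : g ≠ 0 := hg1
  obtain ⟨f, rfl⟩ := Ideal.Quotient.mk_surjective g
  refine ⟨f, fun hf => hg (Ideal.Quotient.eq_zero_iff_mem.2 hf), ?_⟩
  intro Q hQ hfQ
  exact hg2 (show (⟨Q, hQ⟩ : PrimeSpectrum (R ⧸ P)) ∈ PrimeSpectrum.basicOpen _ from hfQ)

/-- **Main theorem.** Every J-2 regular ring of prime characteristic is F-pure regular; in
particular every excellent regular ring of prime characteristic is F-pure regular. -/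
theorem result (p : ℕ) [Fact p.Prime] (R : Type u) [CommRing R] [CharP R p] [IsRegularRing R]
    (hJ : IsJTwo R) : IsFPureRegular.{u, w} p R := by
  intro c hc
  obtain ⟨e0, he0⟩ := uniform p (R := R) (fun m _ => inferInstance) (jzero R hJ) c hc ⊥
  refine ⟨max e0 1, le_max_right _ _, ?_⟩
  intro P _ _
  rw [injective_iff_map_eq_zero]
  intro t ht
  have h1 : t = (1 : R) ⊗ₜ[R] (TensorProduct.lid R P t) := by
    conv_lhs => rw [← (TensorProduct.lid R P).symm_apply_apply t]
    rw [TensorProduct.lid_symm_apply]
  have h2 : (TensorProduct.lid R P t) ⊗ₜ[R] (FPush.of p (max e0 1) R c) = 0 := by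
    rw [h1, LinearMap.rTensor_tmul] at ht
    have h3 : lam p (max e0 1) R c 1 = FPush.of p (max e0 1) R c := by
      change FPush.of p (max e0 1) R (c * 1 ^ p ^ (max e0 1)) = _
      rw [one_pow, mul_one]
    rw [h3] at ht
    have h4 := congrArg (TensorProduct.comm R (FPush p (max e0 1) R) P) ht
    rw [TensorProduct.comm_tmul, map_zero] at h4
    exact h4
  have h5 := pure_global p (max e0 1) c
    (fun m _ => he0 m bot_le (max e0 1) (le_max_left _ _))
    (fun m _ => by
      obtain ⟨n, z, hz, hn⟩ := exists_rsp (B := Localization.AtPrime m)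
      exact ⟨n, z, hz, by rw [Fintype.card_fin]; exact hn.le⟩) _ h2
  rw [h1, h5, TensorProduct.tmul_zero]

end Pool.Agent.Results.MP_9ff724_al.JTwoRegular
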